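import Pool.Agent.Lib.Helper10.YY3.Y13
import Pool.Agent.Lib.Helper10.YY3.Y14

/-!
Yao-Yao graphs with an arbitrary cone orientation at each point are never spanners:
for every `k ≥ 2` and every `t` there is a finite planar point set with a choice of the
cone orientation at each point such that, for every way of breaking ties, the resulting
Yao-Yao graph is not a `t`-spanner.  Moreover, all these orientations may be required to differ by
less than any given `ε > 0` from any given orientation `a`.
-/

namespace Pool.Agent.Results.MP_391ffd_co.NearlyParallelCones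

/-- the angle `2π/k` of a cone -/
noncomputable def coneAngle (k : ℕ) : ℝ := 2 * Real.pi / k

/-- The vectors `z` and `z'` (of the plane `ℂ`) lie in the same cone, where the cones are the
half-open sectors `{r e^{iφ} : r > 0, a + jθ ≤ φ < a + (j+1)θ}`, `θ = 2π/k`, bounded by `k` rays
at angles `a + jθ` (the indices `j` and `j + k` give the same cone). -/
def SameCone (k : ℕ) (a : ℝ) (z z' : ℂ) : Prop :=
  ∃ (j : ℤ) (r φ r' φ' : ℝ),
    0 < r ∧ a + j * coneAngle k ≤ φ ∧ φ < a + (j + 1) * coneAngle k ∧
      z = r * Complex.exp (φ * Complex.I) ∧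
    0 < r' ∧ a + j * coneAngle k ≤ φ' ∧ φ' < a + (j + 1) * coneAngle k ∧
      z' = r' * Complex.exp (φ' * Complex.I)

/-- `Y` is a (directed) Yao graph of the finite point set `P`, where `o u` is the orientation of
the `k` cones at `u`: every edge `u → v` joins two different points of `P` and `v` is a nearest
point to `u` in its cone at `u`; and each cone at `u ∈ P` that contains a point of `P` contains
the head of exactly one edge leaving `u` (so any way of breaking ties is allowed). -/
def IsYaoGraph (k : ℕ) (P : Finset ℂ) (o : ℂ → ℝ) (Y : ℂ → ℂ → Prop) : Prop :=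
  (∀ u v, Y u v → u ∈ P ∧ v ∈ P ∧ u ≠ v) ∧
  (∀ u v, Y u v → ∀ x ∈ P, x ≠ u → SameCone k (o u) (v - u) (x - u) → dist u v ≤ dist u x) ∧
  (∀ u ∈ P, ∀ v ∈ P, u ≠ v → ∃! x, Y u x ∧ SameCone k (o u) (v - u) (x - u))

/-- `YY` is a (still directed) Yao-Yao graph obtained from the Yao graph `Y`: its edges are edges
of `Y`; an edge `u → v` that is kept is a shortest one among the edges of `Y` entering `v` whose
tails lie in the same cone at `v` as `u`; and for each edge `u → v` of `Y` exactly one edge of
`Y` entering `v` from that cone is kept. -/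
def IsYaoYaoGraph (k : ℕ) (o : ℂ → ℝ) (Y YY : ℂ → ℂ → Prop) : Prop :=
  (∀ u v, YY u v → Y u v) ∧
  (∀ u v, YY u v → ∀ x, Y x v → SameCone k (o v) (u - v) (x - v) → dist u v ≤ dist x v) ∧
  (∀ u v, Y u v → ∃! x, YY x v ∧ SameCone k (o v) (u - v) (x - v))

/-- Euclidean length of a walk -/
noncomputable def walkLength {G : SimpleGraph ℂ} {u v : ℂ} (p : G.Walk u v) : ℝ :=
  (p.darts.map (fun d => dist d.fst d.snd)).sum

/-- `G` is a `t`-spanner of the point set `P`: any two points `u, v` of `P` are joined by a walk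
of `G` of length at most `t |uv|`. -/
def IsSpanner (t : ℝ) (P : Finset ℂ) (G : SimpleGraph ℂ) : Prop :=
  ∀ u ∈ P, ∀ v ∈ P, ∃ p : G.Walk u v, walkLength p ≤ t * dist u v

/-- For every `k ≥ 2`, all reals `t`, `a` and every `ε > 0` there are a finite point set `P` and an
orientation of the cones at each point, which differs by less than `ε` from `a`, such that
Yao-Yao graphs exist, and none of them is a `t`-spanner
(`SimpleGraph.fromRel YY` is the undirected graph obtained by forgetting directions). -/
theorem result : ∀ k : ℕ, 2 ≤ k → ∀ t a ε : ℝ, 0 < ε → ∃ (P : Finset ℂ) (o : ℂ → ℝ),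
    (∀ u, |o u - a| < ε) ∧
    (∃ Y YY : ℂ → ℂ → Prop, IsYaoGraph k P o Y ∧ IsYaoYaoGraph k o Y YY) ∧
    ∀ Y YY : ℂ → ℂ → Prop, IsYaoGraph k P o Y → IsYaoYaoGraph k o Y YY →
      ¬ IsSpanner t P (SimpleGraph.fromRel YY) := by
  intro k hk t a ε hε
  obtain ⟨P, o, hW, h0, h1, hmain⟩ := Pool.Agent.Lib.Helper10.YY3.main_raw hk t a hε
  refine ⟨P, o, hW, ?_, ?_⟩
  · exact Pool.Agent.Lib.Helper10.YY3.exists_graphs hk P o
  · rintro Y YY ⟨hY0, hY1, hY2⟩ ⟨hZ0, hZ1, _⟩ hsp
    obtain ⟨p, hp⟩ := hsp 0 h0 1 h1
    have h2 := hmain Y YY hY0 hY1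
      (fun u hu v hv huv => (hY2 u hu v hv huv).exists)
      (fun u v huv => ⟨hZ0 u v huv, fun x hx hs => hZ1 u v huv x hx hs⟩)
      (SimpleGraph.fromRel YY) (fun u v huv => huv.2) p
    have h3 : walkLength p = Pool.Agent.Lib.Helper10.YY3.wlen p := rfl
    rw [h3, dist_zero_left, norm_one, mul_one] at hp
    linarith

end Pool.Agent.Results.MP_391ffd_co.NearlyParallelCones
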